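import Pool.Agent.Lib.Forcing.Defs
import Pool.Agent.MP_0fb2ec_lc.Defs
import Pool.Agent.MP_0fb2ec_lc.Mg.Main

open Pool.Agent.Lib.Forcing Pool.Agent.MP_0fb2ec_lc

/-- There is a model of ZFC in which `non(𝓔) < 𝔟^eq_b` for every `b` with `∑ 1 / b(k) = ∞`:
some `X ⊆ 2^ω` outside `𝓔` is strictly smaller than every unbounded `F ⊆ ∏ b`. -/
theorem Pool.Agent.Results.MP_0fb2ec_lc.Q1Con.result :
    ∃ (M : Type 1) (E : M → M → Prop), ZFC E ∧ ∀ w, Om E w → ∀ b, Dvg E w b →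
      ∃ X, (∀ x, E x X → Bin E w x) ∧ ¬ InE E w X ∧
        ∀ F, (∀ f, E f F → Prd E w b f) →
          (¬ ∃ i h, Part E w i ∧ Prd E w b h ∧ ∀ f, E f F → Mat E w f i h) → Lt E X F := by
  obtain ⟨U⟩ := exists_ult
  refine ⟨U.M, U.E, U.zfc, fun w hw => ?_⟩
  rw [U.om_unique hw]
  exact q1 U
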