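import Pool.Agent.Lib.Forcing.Defs
import Pool.Agent.MP_0fb2ec_lc.Defs
import Pool.Agent.MP_0fb2ec_lc.Mg.Main

open Pool.Agent.Lib.Forcing Pool.Agent.MP_0fb2ec_lc

/-- There is a model of ZFC in which `𝔡^eq_b < cov(𝓔)` for every `b` with `∑ 1 / b(k) = ∞`:
some dominating `D ⊆ 𝕀 × ∏ b` is strictly smaller than every family `A ⊆ 𝓔` covering `2^ω`. -/
theorem Pool.Agent.Results.MP_0fb2ec_lc.Q2Con.result :
    ∃ (M : Type 1) (E : M → M → Prop), ZFC E ∧ ∀ w, Om E w → ∀ b, Dvg E w b →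
      ∃ D, (∀ d, E d D → ∃ i h, Pr E i h d ∧ Part E w i ∧ Prd E w b h) ∧
        (∀ f, Prd E w b f → ∃ d i h, E d D ∧ Pr E i h d ∧ Mat E w f i h) ∧
        ∀ A, (∀ X, E X A → InE E w X) → (∀ x, Bin E w x → ∃ X, E X A ∧ E x X) → Lt E D A := by
  obtain ⟨U⟩ := exists_ult
  refine ⟨U.M, U.E, U.zfc, fun w hw => ?_⟩
  rw [U.om_unique hw]
  exact q2 U
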